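import Pool.Agent.R395.FT.Comp
import Pool.Agent.N62.AG.Stm

/-!
# The search for points is recursively enumerable
-/

set_option autoImplicit false
set_option linter.unusedSectionVars false

namespace Pool.Agent.N458.AG.REI

open Pool.Agent.Helper446 Pool.Agent.W960.GA
open Pool.Agent.N62.AG
open Pool.Agent.R395.FT (ciadd cisub cimul cineg cicast cinatAbs cp_or)

attribute [local fun_prop] ciadd cisub cimul cineg cicast cinatAbs

section

variable {α : Type} [Primcodable α]

@[local fun_prop] theorem cAA {f : α → ℤ} (hf : Computable f) :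
    Computable (fun x => Pool.Agent.N62.AG.AA (f x)) := by
  have h : Computable (fun x => 5805 * (f x * f x)) := by fun_prop
  refine h.of_eq fun x => ?_
  unfold Pool.Agent.N62.AG.AA
  ring

@[local fun_prop] theorem cBB {f : α → ℤ} (hf : Computable f) :
    Computable (fun x => Pool.Agent.N62.AG.BB (f x)) := by
  have h : Computable (fun x => -285714 * (f x * f x * f x)) := by fun_prop
  refine h.of_eq fun x => ?_
  unfold Pool.Agent.N62.AG.BB
  ring

@[local fun_prop] theorem cweier {f g : α → ℤ} (hf : Computable f) (hg : Computable g) :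
    Computable (fun x => Pool.Agent.N62.AG.weier (f x) (g x)) := by
  unfold Pool.Agent.N62.AG.weier
  refine Computable.list_cons.comp (Computable.list_cons.comp (by fun_prop)
    (Computable.const _)) (Computable.list_cons.comp (Computable.list_cons.comp (by fun_prop)
    (Computable.const _)) (Computable.const _))

theorem cp_Sq {f : α → ℤ} (hf : Computable f) :
    ComputablePred fun x => Pool.Agent.N62.AG.Sq (f x) := by
  unfold Pool.Agent.N62.AG.Sq
  refine cp_ex_lt (p := fun x r => (r : ℤ) * r = f x) ?_ (by fun_prop)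
  exact RE.cp_eq (by fun_prop) (by fun_prop)

theorem cp_C1 {f : α → ℤ} {g : α → ℤ × ℤ × ℤ} (hf : Computable f) (hg : Computable g) :
    ComputablePred fun x => C1 (f x) (g x) := by
  unfold C1
  exact cp_and (cp_not (RE.cp_eq (by fun_prop) (by fun_prop))) (cp_and
    (cp_not (RE.cp_eq (by fun_prop) (by fun_prop))) (cp_and (RE.cp_eq (by fun_prop) (by fun_prop))
    (cp_and (cp_not (cp_Sq (by fun_prop))) (cp_not (cp_Sq (by fun_prop))))))

theorem cp_C2 {f : α → ℤ} {g : α → ℤ × ℤ × ℤ} (hf : Computable f) (hg : Computable g) :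
    ComputablePred fun x => C2 (f x) (g x) := by
  unfold C2
  exact cp_and (cp_not (RE.cp_eq (by fun_prop) (by fun_prop))) (cp_and
    (cp_not (RE.cp_eq (by fun_prop) (by fun_prop))) (cp_and (RE.cp_eq (by fun_prop) (by fun_prop))
    (cp_and (cp_not (cp_Sq (by fun_prop))) (cp_not (cp_Sq (by fun_prop))))))

/-- the search is recursively enumerable -/
theorem t : Pool.Agent.N62.AG.S_REI := by
  unfold S_REI PInf
  refine RE.ex (p := fun (L : List (List ℤ)) (w : ℤ × ℤ × ℤ × ℤ) =>
    ¬ w.1 = 0 ∧ L = Pool.Agent.N62.AG.weier (Pool.Agent.N62.AG.AA w.1) (Pool.Agent.N62.AG.BB w.1) ∧ (C1 w.1 w.2 ∨ C2 w.1 w.2)) ?_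
  exact RE.of_comput (cp_and (cp_not (RE.cp_eq (by fun_prop) (by fun_prop))) (cp_and
    (RE.cp_eq (by fun_prop) (by fun_prop))
    (cp_or (cp_C1 (by fun_prop) (by fun_prop)) (cp_C2 (by fun_prop) (by fun_prop)))))

end

end Pool.Agent.N458.AG.REI
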